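import Pool.Agent.H49.SW.Stm

set_option autoImplicit false

/-!
# R8: two linear forms are impossible
-/

namespace Pool.Agent.H21.SW

open Finset MvPolynomial
open Pool.Agent.H49.SW
open Pool.Agent.H72.OF (os)

/-- Substitute `t x * X` for the letter `x`. -/
noncomputable def phi {α : Type} (t : α → ℕ) : MvPolynomial α ℤ →+* Polynomial ℤ :=
  eval₂Hom Polynomial.C (fun x => Polynomial.C (t x : ℤ) * Polynomial.X)

theorem phi_monomial {α : Type} (t : α → ℕ) (m : α →₀ ℕ) (c : ℤ) :
    phi t (monomial m c) = Polynomial.C (evt t (monomial m c)) * Polynomial.X ^ m.degree := by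
  have hd : m.degree = ∑ i ∈ m.support, m i := rfl
  unfold phi evt
  rw [eval₂Hom_monomial, eval_monomial, hd]
  simp only [Finsupp.prod, mul_pow, Finset.prod_mul_distrib, map_mul, map_prod, map_pow,
    Finset.prod_pow_eq_pow_sum]
  ring

theorem evt_monomial_nonneg {α : Type} (t : α → ℕ) (m : α →₀ ℕ) (c : ℤ) (hc : 0 ≤ c) :
    0 ≤ evt t (monomial m c) := by
  unfold evt
  rw [eval_monomial]
  refine mul_nonneg hc ?_
  unfold Finsupp.prod
  exact Finset.prod_nonneg fun x _ => by positivity

theorem phi_coeff_nonneg {α : Type} (t : α → ℕ) (p : MvPolynomial α ℤ)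
    (hp : ∀ m, 0 ≤ coeff m p) (n : ℕ) : 0 ≤ (phi t p).coeff n := by
  rw [p.as_sum, map_sum, Polynomial.finsetSum_coeff]
  refine Finset.sum_nonneg fun m _ => ?_
  rw [phi_monomial, Polynomial.coeff_C_mul, Polynomial.coeff_X_pow]
  refine mul_nonneg (evt_monomial_nonneg t m _ (hp m)) ?_
  split_ifs <;> norm_num

theorem phi_linear {α : Type} (t : α → ℕ) (a : MvPolynomial α ℤ) (ha : a.totalDegree ≤ 1)
    (h0 : constantCoeff a = 0) : phi t a = Polynomial.C (evt t a) * Polynomial.X := by
  have key : ∀ m ∈ a.support, phi t (monomial m (coeff m a)) =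
      Polynomial.C (evt t (monomial m (coeff m a))) * Polynomial.X := by
    intro m hm
    rw [phi_monomial]
    have h1 : m.degree ≤ 1 := (le_totalDegree hm).trans ha
    have h2 : m.degree ≠ 0 := by
      intro h
      rw [Finsupp.degree_eq_zero_iff] at h
      subst h
      rw [constantCoeff_eq] at h0
      exact (mem_support_iff.mp hm) h0
    have h3 : m.degree = 1 := by omega
    rw [h3, pow_one]
  conv_lhs => rw [a.as_sum, map_sum, Finset.sum_congr rfl key]
  rw [← Finset.sum_mul, ← map_sum]
  congr 2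
  unfold evt
  rw [← map_sum, ← a.as_sum]

theorem stwo : STwo := by
  intro α _ _ a b t ht ha hb ha0 hb0 hea heb hn
  have h1 := phi_coeff_nonneg t _ hn 2
  rw [map_sub, map_add, map_mul, map_mul, phi_linear t a ha ha0, phi_linear t b hb hb0] at h1
  have h2 : phi t (os α) = 1 - Polynomial.C (∑ x, (t x : ℤ)) * Polynomial.X := by
    unfold os phi
    simp [Finset.sum_mul]
  rw [h2] at h1
  have h3 : Polynomial.C (evt t a) * Polynomial.X + Polynomial.C (evt t b) * Polynomial.X -
      (1 - Polynomial.C (∑ x, (t x : ℤ)) * Polynomial.X) *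
        (Polynomial.C (evt t a) * Polynomial.X * (Polynomial.C (evt t b) * Polynomial.X)) =
      Polynomial.C (evt t a + evt t b) * Polynomial.X ^ 1 -
        Polynomial.C (evt t a * evt t b) * Polynomial.X ^ 2 +
        Polynomial.C ((∑ x, (t x : ℤ)) * (evt t a * evt t b)) * Polynomial.X ^ 3 := by
    simp only [map_add, map_mul]
    ring
  rw [h3] at h1
  rw [Polynomial.coeff_add, Polynomial.coeff_sub, Polynomial.coeff_C_mul, Polynomial.coeff_C_mul,
    Polynomial.coeff_C_mul, Polynomial.coeff_X_pow, Polynomial.coeff_X_pow,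
    Polynomial.coeff_X_pow] at h1
  norm_num at h1
  have := mul_pos hea heb
  linarith

end Pool.Agent.H21.SW
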